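import Pool.Agent.W5h30.Sq.Corr

/-!
# `n² α` modulo one: the correlations of order `k ≥ 5` need not be Poissonian

There is an irrational number `α` which is of type `κ` for every `κ > 2` (as almost every number
is), whose approximations `a / q` with `|α - a / q| < q⁻²` (in particular the convergents) have
almost squarefree denominators, and for which nevertheless all `k`-level correlations of the
sequence `n² α` modulo one with `k ≥ 5` are unbounded.

Proof. The obstruction comes from fractions `a / m²` with `|α - a / m²| ≤ m ^ (-3.9)`; these are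
not convergents. For `N = m ^ 1.3` the `N / m` numbers `n = m l ≤ N` have `n² α` at distance at most
`1 / N` from an integer, which gives about `(N / m) ^ k` tuples, more than `N`. The number `α` is
constructed by nested intervals around fractions `a / m²`, `m` prime. By a counting argument one
can choose `a` such that the points of the interval around `a / m²` at distance at least `ρ q` from
all fractions with denominator `q`, for all large `q`, have positive measure, if `∑ q ρ q`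
converges. This is used with `ρ q = q⁻²` for the `q` with a large square divisor, and
`ρ q = q⁻² (log q)⁻²` for the others.
-/

set_option autoImplicit false

open Filter Topology

namespace Pool.Agent.Results.MP_0a44cb_nt.SquareFractions

/-- `x_n = {n² α}` -/
noncomputable def x (α : ℝ) (n : ℕ) : ℝ := Int.fract ((n : ℝ) ^ 2 * α)

/-- The `(k+1)`-level correlation of `x_1, …, x_N` for the test function `f` on `ℝ^k`: the sum of
`f (N (x_{n_1} - x_{n_2} + m_1), …, N (x_{n_k} - x_{n_{k+1}} + m_k))` over all tuples of distinct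
`n_1, …, n_{k+1}` in `{1, …, N}` and all `m ∈ ℤ^k`, divided by `N`. -/
noncomputable def corr (α : ℝ) (k : ℕ) (f : (Fin k → ℝ) → ℝ) (N : ℕ) : ℝ :=
  1 / (N : ℝ) * ∑ n ∈ (Fintype.piFinset fun _ : Fin (k + 1) => Finset.Icc 1 N).filter
      (fun n : Fin (k + 1) → ℕ => Function.Injective n),
    ∑' m : Fin k → ℤ, f fun i => N * (x α (n i.castSucc) - x α (n i.succ) + m i)

/-- There is an irrational number `α` such that

* `α` is of type `κ` for every `κ > 2`;
* for every `ε > 0`, all sufficiently large `q` such that `|α - a / q| < q⁻²` for some `a` have the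
  property that `s ≥ q ^ (1 - ε)` whenever `q = s r²`; in particular this holds for the squarefree
  part `s` of the denominator `q` of every sufficiently late convergent;
* for every `k ≥ 5` (here `k = j + 1` with `j ≥ 4`) there is a nonnegative continuous function `f`
  with compact support on `ℝ^(k-1)` such that the `k`-level correlations `R_k(f, N)` of the sequence
  `n² α` modulo one are unbounded; in particular they do not converge to `∫ f`, or to any number. -/
theorem result : ∃ α : ℝ, Irrational α ∧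
    (∀ κ : ℝ, 2 < κ → ∃ C : ℝ, 0 < C ∧ ∀ (a : ℤ) (q : ℕ), 1 ≤ q →
      C * (q : ℝ) ^ (-κ) ≤ |α - a / q|) ∧
    (∀ ε : ℝ, 0 < ε → ∃ q₀ : ℕ, ∀ q : ℕ, q₀ ≤ q → ∀ a : ℤ, |α - a / q| < 1 / (q : ℝ) ^ 2 →
      ∀ s r : ℕ, q = s * r ^ 2 → (q : ℝ) ^ (1 - ε) ≤ s) ∧
    ∀ j : ℕ, 4 ≤ j → ∃ f : (Fin j → ℝ) → ℝ, Continuous f ∧ HasCompactSupport f ∧ (∀ t, 0 ≤ f t) ∧
      (∀ K : ℝ, ∃ᶠ N in atTop, K ≤ corr α j f N) ∧
      ¬ Tendsto (fun N => corr α j f N) atTop (𝓝 (∫ t, f t)) := by
  obtain ⟨α, ⟨q0, hq0, hρ⟩, hα⟩ := Pool.Agent.W5h30.Sq.exists_alpha Pool.Agent.W5h30.Sq.rad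
    Pool.Agent.W5h30.Sq.rad_good (39 / 10) (by norm_num) (by norm_num)
  have hρpos : ∀ q : ℕ, 0 < q → 0 < Pool.Agent.W5h30.Sq.rad q := fun q hq =>
    lt_of_lt_of_le (by
      have h1 : (0 : ℝ) < q := by exact_mod_cast hq
      have h2 := Pool.Agent.W5h30.Sq.len_pos q
      positivity) (Pool.Agent.W5h30.Sq.le_rad q hq)
  refine ⟨α, ?_, ?_, ?_, ?_⟩
  · rintro ⟨t, ht⟩
    have h1 := hρ (q0 * t.den) (Nat.le_mul_of_pos_right _ t.den_pos) (q0 * t.num)
    have hq0R : (0 : ℝ) < q0 := by exact_mod_cast hq0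
    have h2 : α - ((q0 * t.num : ℤ) : ℝ) / ((q0 * t.den : ℕ) : ℝ) = 0 := by
      rw [← ht]
      push_cast
      rw [mul_div_mul_left _ _ hq0R.ne']
      have : ((t : ℚ) : ℝ) = (t.num : ℝ) / t.den := by exact_mod_cast (Rat.num_div_den t).symm
      rw [this]
      ring
    rw [h2, abs_zero] at h1
    exact absurd h1 (not_le.2 (hρpos _ (Nat.mul_pos hq0 t.den_pos)))
  · intro κ hκ
    obtain ⟨C, hC, hlen⟩ := Pool.Agent.W5h30.Sq.len_le ((κ - 2) / 2) (by linarith)
    have hq0R : (0 : ℝ) < q0 := by exact_mod_cast hq0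
    refine ⟨(q0 : ℝ) ^ (-κ) / C ^ 2, by positivity, fun a q hq => ?_⟩
    have hqR : (0 : ℝ) < q := by exact_mod_cast hq
    have hQ : 0 < q0 * q := Nat.mul_pos hq0 hq
    have hQR : (0 : ℝ) < (q0 : ℝ) * q := by positivity
    have h1 := hρ (q0 * q) (Nat.le_mul_of_pos_right _ hq) (q0 * a)
    have h2 : ((q0 * a : ℤ) : ℝ) / ((q0 * q : ℕ) : ℝ) = a / q := by
      push_cast
      rw [mul_div_mul_left _ _ hq0R.ne']
    rw [h2] at h1
    refine le_trans ?_ h1
    refine le_trans ?_ (Pool.Agent.W5h30.Sq.le_rad _ hQ)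
    have h3 := hlen (q0 * q) hQ
    have h4 := Pool.Agent.W5h30.Sq.len_pos (q0 * q)
    push_cast at h3 ⊢
    have h5 : (Pool.Agent.W5h30.Sq.len (q0 * q) : ℝ) ^ 2 ≤ C ^ 2 * ((q0 : ℝ) * q) ^ (κ - 2) := by
      calc (Pool.Agent.W5h30.Sq.len (q0 * q) : ℝ) ^ 2 ≤
            (C * ((q0 : ℝ) * q) ^ ((κ - 2) / 2)) ^ 2 := pow_le_pow_left₀ (by linarith) h3 2
        _ = C ^ 2 * ((q0 : ℝ) * q) ^ (κ - 2) := by
          rw [mul_pow, ← Real.rpow_natCast (((q0 : ℝ) * q) ^ ((κ - 2) / 2)),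
            ← Real.rpow_mul hQR.le]
          congr 2
          push_cast
          ring
    have h6 : (q0 : ℝ) ^ (-κ) / C ^ 2 * (q : ℝ) ^ (-κ) =
        1 / (((q0 : ℝ) * q) ^ 2 * (C ^ 2 * ((q0 : ℝ) * q) ^ (κ - 2))) := by
      have h7 : ((q0 : ℝ) * q) ^ 2 * (C ^ 2 * ((q0 : ℝ) * q) ^ (κ - 2)) =
          C ^ 2 * ((q0 : ℝ) * q) ^ κ := by
        have : ((q0 : ℝ) * q) ^ κ = ((q0 : ℝ) * q) ^ 2 * ((q0 : ℝ) * q) ^ (κ - 2) := by
          rw [← Real.rpow_natCast, ← Real.rpow_add hQR]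
          congr 1
          push_cast
          ring
        rw [this]
        ring
      rw [h7, Real.rpow_neg hq0R.le, Real.rpow_neg hqR.le, Real.mul_rpow hq0R.le hqR.le]
      field_simp
    rw [h6]
    apply one_div_le_one_div_of_le (by positivity)
    exact mul_le_mul_of_nonneg_left h5 (by positivity)
  · intro ε hε
    obtain ⟨C, hC, hlen⟩ := Pool.Agent.W5h30.Sq.len_le (ε / 8) (by linarith)
    have ht : Tendsto (fun q : ℕ => (q : ℝ) ^ (ε / 2)) atTop atTop :=
      (tendsto_rpow_atTop (by linarith)).comp tendsto_natCast_atTop_atTop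
    obtain ⟨q1, hq1⟩ := eventually_atTop.1 (ht.eventually (eventually_ge_atTop (C ^ 4)))
    refine ⟨max (max q0 q1) 1, fun q hq a ha s r hs => ?_⟩
    have h0 : q0 ≤ q := le_trans (le_trans (le_max_left _ _) (le_max_left _ _)) hq
    have h1 : q1 ≤ q := le_trans (le_trans (le_max_right _ _) (le_max_left _ _)) hq
    have hq0' : 0 < q := le_trans (le_max_right _ _) hq
    have hqR : (0 : ℝ) < q := by exact_mod_cast hq0'
    have h2 : ¬ Pool.Agent.W5h30.Sq.Bad q := by
      intro hb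
      have h3 := hρ q h0 a
      rw [Pool.Agent.W5h30.Sq.rad, if_pos hb] at h3
      linarith
    have h3 : r < Pool.Agent.W5h30.Sq.len q ^ 2 := by
      by_contra h4
      exact h2 ⟨r, ⟨s, by rw [hs]; ring⟩, by omega⟩
    have h4 : (r : ℝ) ≤ (Pool.Agent.W5h30.Sq.len q : ℝ) ^ 2 := by exact_mod_cast h3.le
    have h5 := hlen q hq0'
    have h6 := Pool.Agent.W5h30.Sq.len_pos q
    have h7 : (r : ℝ) ^ 2 ≤ (q : ℝ) ^ ε := by
      calc (r : ℝ) ^ 2 ≤ ((Pool.Agent.W5h30.Sq.len q : ℝ) ^ 2) ^ 2 :=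
            pow_le_pow_left₀ (by positivity) h4 2
        _ = (Pool.Agent.W5h30.Sq.len q : ℝ) ^ 4 := by ring
        _ ≤ (C * (q : ℝ) ^ (ε / 8)) ^ 4 := pow_le_pow_left₀ (by linarith) h5 4
        _ = C ^ 4 * (q : ℝ) ^ (ε / 2) := by
          rw [mul_pow, ← Real.rpow_natCast ((q : ℝ) ^ (ε / 8)), ← Real.rpow_mul hqR.le]
          congr 2
          push_cast
          ring
        _ ≤ (q : ℝ) ^ (ε / 2) * (q : ℝ) ^ (ε / 2) :=
          mul_le_mul_of_nonneg_right (hq1 q h1) (by positivity)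
        _ = (q : ℝ) ^ ε := by
          rw [← Real.rpow_add hqR]
          congr 1
          ring
    have h8 : (q : ℝ) = s * (r : ℝ) ^ 2 := by exact_mod_cast hs
    have h9 : (q : ℝ) ≤ s * (q : ℝ) ^ ε := by
      calc (q : ℝ) = s * (r : ℝ) ^ 2 := h8
        _ ≤ s * (q : ℝ) ^ ε := mul_le_mul_of_nonneg_left h7 (Nat.cast_nonneg _)
    rw [Real.rpow_sub hqR, Real.rpow_one, div_le_iff₀ (by positivity)]
    exact h9
  · intro j hj
    have hub : ∀ K : ℝ, ∃ᶠ N in atTop, K ≤ corr α j (Pool.Agent.W5h30.Sq.tent j) N := by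
      intro K
      rw [frequently_atTop]
      intro N0
      have h1 : ∀ B : ℕ, ∃ m : ℕ, B ≤ m ∧ m.Prime ∧ ∃ a : ℤ,
          |α - a / (m : ℝ) ^ 2| ≤ (m : ℝ) ^ (-(39 / 10) : ℝ) := hα
      obtain ⟨N, h2, h3⟩ := Pool.Agent.W5h30.Sq.corr_unbounded α h1 j hj K N0
      exact ⟨N, h2, h3⟩
    refine ⟨Pool.Agent.W5h30.Sq.tent j, Pool.Agent.W5h30.Sq.tent_cont j,
      Pool.Agent.W5h30.Sq.tent_supp j, Pool.Agent.W5h30.Sq.tent_nonneg j, hub, fun hlim => ?_⟩
    obtain ⟨K, hK⟩ : ∃ K : ℝ, (∫ t, Pool.Agent.W5h30.Sq.tent j t) < K := exists_gt _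
    obtain ⟨N, h1, h2⟩ := ((hub K).and_eventually (hlim.eventually (gt_mem_nhds hK))).exists
    linarith

end Pool.Agent.Results.MP_0a44cb_nt.SquareFractions
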